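import Mathlib

set_option autoImplicit false
set_option maxRecDepth 100000

namespace Pool.Agent.Results.MP_f03b0a_co.Q2

open Finset

variable {n m : ℕ}

/-- a multigraph on `Fin n` with edge set `Fin m` is a map giving the two ends of each edge -/
abbrev MG (n m : ℕ) : Type := Fin m → Fin n × Fin n

/-- adjacency structure of the spanning subgraph with edge set `A` -/
def sub (G : MG n m) (A : Finset (Fin m)) : SimpleGraph (Fin n) :=
  SimpleGraph.fromRel fun u v => ∃ e ∈ A, G e = (u, v)

/-- number of connected components of the spanning subgraph -/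
noncomputable def comp (G : MG n m) (A : Finset (Fin m)) : ℕ :=
  Nat.card (sub G A).ConnectedComponent

/-- rank -/
noncomputable def rk (G : MG n m) (A : Finset (Fin m)) : ℕ := n - comp G A

/-- Tutte polynomial -/
noncomputable def tutte (G : MG n m) : MvPolynomial (Fin 2) ℤ :=
  ∑ A : Finset (Fin m), (MvPolynomial.X 0 - 1) ^ (rk G univ - rk G A) *
    (MvPolynomial.X 1 - 1) ^ (#A - rk G A)

/-- 3-connected -/
def Conn3 (G : MG n m) : Prop :=
  4 ≤ n ∧ ∀ S : Finset (Fin n), #S ≤ 2 → ∀ u ∉ S, ∀ v ∉ S,
    (sub G (univ.filter fun e => (G e).1 ∉ S ∧ (G e).2 ∉ S)).Reachable u v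

/-- merge two labels -/
def mg (p : Fin n × Fin n) (L : List ℕ) : List ℕ :=
  L.map fun c => if c = L.getD p.2 0 then L.getD p.1 0 else c

/-- the labels describe the components -/
def Ok (G : MG n m) (A : Finset (Fin m)) (L : List ℕ) : Prop :=
  L.length = n ∧ ∀ x y : Fin n, L.getD x 0 = L.getD y 0 ↔ (sub G A).Reachable x y

theorem ok0 (G : MG n m) : Ok G ∅ (List.range n) := by
  refine ⟨by simp, fun x y => ?_⟩
  have : sub G ∅ = ⊥ := by ext; simp [sub]
  simp [this, Fin.ext_iff]

theorem okS (G : MG n m) (A : Finset (Fin m)) (L : List ℕ) (e : Fin m) (h : Ok G A L) :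
    Ok G (insert e A) (mg (G e) L) := by
  obtain ⟨h0, h⟩ := h
  have g : ∀ x : Fin n, (mg (G e) L).getD x 0 =
      if L.getD x 0 = L.getD (G e).2 0 then L.getD (G e).1 0 else L.getD x 0 := fun x => by
    have : (x : ℕ) < L.length := h0 ▸ x.2
    simp [mg, List.getD, this]
  have mono : ∀ x y : Fin n, L.getD x 0 = L.getD y 0 → (sub G (insert e A)).Reachable x y := fun x y a =>
    ((h x y).1 a).mono fun u v a => by
      simp only [sub, SimpleGraph.fromRel_adj, mem_insert] at a ⊢
      exact ⟨a.1, a.2.imp (fun ⟨f, b, c⟩ => ⟨f, Or.inr b, c⟩) fun ⟨f, b, c⟩ => ⟨f, Or.inr b, c⟩⟩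
  have ed : (sub G (insert e A)).Reachable (G e).1 (G e).2 := by
    by_cases a : (G e).1 = (G e).2
    · rw [a]
    · exact SimpleGraph.Adj.reachable (by
        simp only [sub, SimpleGraph.fromRel_adj]
        exact ⟨a, Or.inl ⟨e, mem_insert_self _ _, rfl⟩⟩)
  refine ⟨by simp [mg, h0], fun x y => ⟨fun a => ?_, fun a => ?_⟩⟩
  · rw [g, g] at a
    split_ifs at a with b c c
    · exact mono x y (b.trans c.symm)
    · exact (mono _ _ b).trans (ed.symm.trans (mono _ _ a))
    · exact (mono _ _ a).trans (ed.trans (mono _ _ c.symm))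
    · exact mono x y a
  · have key : ∀ u v, (∃ f ∈ insert e A, G f = (u, v)) →
        (mg (G e) L).getD u 0 = (mg (G e) L).getD v 0 := by
      rintro u v ⟨f, hf, b⟩
      rw [g, g]
      rcases mem_insert.1 hf with rfl | hf
      · simp [b]
      · by_cases c : u = v
        · rw [c]
        · rw [(h u v).2 (SimpleGraph.Adj.reachable (by
            simp only [sub, SimpleGraph.fromRel_adj]
            exact ⟨c, Or.inl ⟨f, hf, b⟩⟩))]
    rw [SimpleGraph.reachable_iff_reflTransGen] at a
    induction a with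
    | refl => rfl
    | tail _ b ih =>
      simp only [sub, SimpleGraph.fromRel_adj] at b
      exact ih.trans (b.2.elim (key _ _) fun c => (key _ _ c).symm)

theorem ok_comp (G : MG n m) (A : Finset (Fin m)) (L : List ℕ) (h : Ok G A L) :
    comp G A = L.dedup.length := by
  rw [← List.card_toFinset, comp, ← Nat.card_eq_finsetCard]
  refine Nat.card_congr (Equiv.ofBijective (SimpleGraph.ConnectedComponent.lift
    (fun x => ⟨L.getD x 0, by
      have : (x : ℕ) < L.length := h.1 ▸ x.2
      simp [List.getD, this]⟩) fun x y p _ => Subtype.ext ((h.2 x y).2 ⟨p⟩)) ⟨?_, ?_⟩)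
  · intro a b
    refine SimpleGraph.ConnectedComponent.ind₂ (fun x y e => ?_) a b
    exact SimpleGraph.ConnectedComponent.sound ((h.2 x y).1 (congrArg Subtype.val e))
  · rintro ⟨c, hc⟩
    obtain ⟨i, hi, rfl⟩ := List.getElem_of_mem (List.mem_toFinset.1 hc)
    exact ⟨(sub G A).connectedComponentMk ⟨i, h.1 ▸ hi⟩, Subtype.ext (by simp [List.getD, hi])⟩

/-- labels after adding a list of edges -/
def lab (G : MG n m) : List (Fin m) → List ℕ
  | [] => List.range n
  | e :: s => mg (G e) (lab G s)

theorem lab_ok (G : MG n m) (s : List (Fin m)) : Ok G s.toFinset (lab G s) := by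
  induction s with
  | nil => exact ok0 G
  | cons e s ih => rw [List.toFinset_cons]; exact okS G _ _ e ih

/-- generating function of the pairs (components, size) -/
def codes (G : MG n m) : List (Fin m) → List ℕ → ℕ → List ℕ
  | [], L, s => [13 * L.dedup.length + s]
  | e :: es, L, s => codes G es L s ++ codes G es (mg (G e) L) (s + 1)

theorem codes_sum {R : Type} [AddCommMonoid R] (G : MG n m) (F : ℕ → R) (es : List (Fin m))
    (hn : es.Nodup) : ∀ (A : Finset (Fin m)) (L : List ℕ), Ok G A L → (∀ e ∈ es, e ∉ A) →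
    ((codes G es L #A).map F).sum =
      ∑ B ∈ es.toFinset.powerset, F (13 * comp G (A ∪ B) + #(A ∪ B)) := by
  induction es with
  | nil => intro A L h _; simp [codes, ok_comp G A L h]
  | cons e es ih =>
    intro A L h hd
    rw [List.nodup_cons] at hn
    have he := hd e List.mem_cons_self
    rw [List.toFinset_cons, sum_powerset_insert (by simpa using hn.1), codes, List.map_append,
      List.sum_append, ih hn.2 A L h fun f hf => hd f (List.mem_cons_of_mem _ hf),
      ← card_insert_of_notMem he, ih hn.2 _ _ (okS G A L e h) fun f hf => by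
        rw [mem_insert, not_or]
        exact ⟨fun a => hn.1 (a ▸ hf), hd f (List.mem_cons_of_mem _ hf)⟩]
    simp only [insert_union, union_insert]

/-- histogram -/
def hist (l : List ℕ) : List ℕ :=
  l.foldr (fun a h => h.set a (h.getD a 0 + 1)) (List.replicate 104 0)

theorem hist_spec (l : List ℕ) : (hist l).length = 104 ∧ ∀ a < 104, (hist l).getD a 0 = l.count a := by
  induction l with
  | nil => exact ⟨rfl, by decide⟩
  | cons b l ih =>
    refine ⟨by simpa [hist] using ih.1, fun a ha => ?_⟩
    change ((hist l).set b ((hist l).getD b 0 + 1)).getD a 0 = _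
    have := ih.2 a ha
    by_cases c : b = a
    · subst c
      rw [this, List.count_cons_self]
      simp [List.getD, ih.1, ha]
    · simp only [List.getD] at this ⊢
      simp [this, c]

theorem perm (l l' : List ℕ)
    (H : (l.all (· < 104) && (l'.all (· < 104) && hist l == hist l')) = true) : l.Perm l' := by
  rw [Bool.and_eq_true, Bool.and_eq_true, beq_iff_eq] at H
  obtain ⟨h, h', e⟩ := H
  refine List.perm_iff_count.2 fun a => ?_
  simp only [List.all_eq_true, decide_eq_true_eq] at h h'
  by_cases c : a < 104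
  · rw [← (hist_spec l).2 a c, e, (hist_spec l').2 a c]
  · rw [List.count_eq_zero.2 fun b => c (h a b), List.count_eq_zero.2 fun b => c (h' a b)]

/-- the 3-connected graph -/
def G1 : MG 7 12 := ![(1, 3), (2, 3), (0, 4), (2, 4), (0, 5), (1, 5), (4, 5), (0, 6), (0, 6),
  (1, 6), (2, 6), (3, 6)]

/-- the other graph -/
def G2 : MG 7 12 := ![(0, 3), (0, 3), (0, 4), (1, 4), (2, 4), (1, 5), (2, 5), (3, 5), (1, 6),
  (2, 6), (3, 6), (5, 6)]

theorem tt (G : MG 7 12) (h : (lab G (List.finRange 12)).dedup.length = 1) :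
    tutte G = ((codes G (List.finRange 12) (List.range 7) 0).map fun c =>
      ((MvPolynomial.X 0 - 1) ^ (6 - (7 - c / 13)) * (MvPolynomial.X 1 - 1) ^
        (c % 13 - (7 - c / 13)) : MvPolynomial (Fin 2) ℤ)).sum := by
  have h1 := ok_comp G _ _ (lab_ok G (List.finRange 12))
  rw [List.toFinset_finRange, h] at h1
  have := codes_sum G (fun c => ((MvPolynomial.X 0 - 1) ^ (6 - (7 - c / 13)) *
    (MvPolynomial.X 1 - 1) ^ (c % 13 - (7 - c / 13)) : MvPolynomial (Fin 2) ℤ)) _
    (List.nodup_finRange 12) ∅ _ (ok0 G) (by simp)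
  rw [card_empty] at this
  rw [this, List.toFinset_finRange, powerset_univ, tutte]
  refine sum_congr rfl fun A _ => ?_
  have : #A ≤ 12 := by simpa using card_le_univ A
  rw [empty_union, rk, rk, h1, show (13 * comp G A + #A) / 13 = comp G A by omega,
    show (13 * comp G A + #A) % 13 = #A by omega]

theorem reach (G : MG n m) (p : Fin m → Prop) [DecidablePred p] (u v : Fin n) :
    (sub G (univ.filter p)).Reachable u v ↔ (lab G ((List.finRange m).filter p)).getD u 0 =
      (lab G ((List.finRange m).filter p)).getD v 0 := by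
  rw [(lab_ok G _).2, List.toFinset_filter, List.toFinset_finRange]
  simp

theorem pm : (codes G1 (List.finRange 12) (List.range 7) 0).Perm
    (codes G2 (List.finRange 12) (List.range 7) 0) := by
  apply perm
  decide +kernel

theorem c3 : ∀ S : Finset (Fin 7), #S ≤ 2 → ∀ u ∉ S, ∀ v ∉ S,
    (lab G1 ((List.finRange 12).filter fun e => (G1 e).1 ∉ S ∧ (G1 e).2 ∉ S)).getD u 0 =
      (lab G1 ((List.finRange 12).filter fun e => (G1 e).1 ∉ S ∧ (G1 e).2 ∉ S)).getD v 0 := by
  decide +kernel

theorem result : ∃ G H : MG 7 12, (sub G univ).Connected ∧ (sub H univ).Connected ∧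
    tutte G = tutte H ∧ Conn3 G ∧ ¬ Conn3 H := by
  have c : ∀ G : MG 7 12, (∀ u v : Fin 7, (lab G (List.finRange 12)).getD u 0 =
      (lab G (List.finRange 12)).getD v 0) → (sub G univ).Connected := fun G h =>
    ⟨fun u v => by
      have := ((lab_ok G _).2 u v).1 (h u v)
      rwa [List.toFinset_finRange] at this⟩
  refine ⟨G1, G2, c _ (by decide +kernel), c _ (by decide +kernel), ?_, ⟨by norm_num, ?_⟩, ?_⟩
  · rw [tt G1 (by decide +kernel), tt G2 (by decide +kernel)]
    exact List.Perm.sum_eq (List.Perm.map _ pm)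
  · intro S h u hu v hv
    exact (reach G1 _ u v).2 (c3 S h u hu v hv)
  · intro h
    have := h.2 {3, 4} (by decide) 0 (by decide) 1 (by decide)
    rw [reach] at this
    revert this
    decide +kernel

end Pool.Agent.Results.MP_f03b0a_co.Q2
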